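import Mathlib
import Pool.Agent.R384.Y.Sch
import Pool.Agent.R384.Inf

/-!
# Schneider's conjecture for `p = 2` and all twists over quadratic extensions of `ℚ(√-7)`

`K = ℚ(√-7)` with ring of integers `ℤ[ω]`, `ω² = ω - 2`. Let `d = ± q_1 ... q_n` with distinct
primes `q_i = 1` modulo `4` of `ℤ[ω]`, `q_1 ... q_n = 5` modulo `8`, such that the graph with
vertices `1, ..., n` and edges `{i, k}` for the pairs such that `q_i` is not a square modulo `q_k`
has an odd number of spanning trees.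

Theorem: for the quartic field `L = K(√d)` and for **all** integers `r ≠ 0` the group
`Ш¹(O_{L,S}, ℤ_2(r))` is zero, for every `S`. For all `n > 0` there are infinitely many such `d`,
that is, infinitely many such fields that are ramified over `K` at exactly `n` primes.
-/

set_option autoImplicit false

namespace Pool.Agent.Results.MP_59f3ad_nt.QuarticFieldsAllTwists

open scoped Classical

/-! ### The fields -/

/-- An algebraic closure of `ℚ`. -/
abbrev QBar : Type := AlgebraicClosure ℚ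

/-- The ring of integers `ℤ[ω]`, `ω² = ω - 2`, of `ℚ(√-7)`. -/
abbrev OK : Type := QuadraticAlgebra ℤ (-2) 1

/-- The element `a + b w` for `z = a + b ω`. -/
noncomputable def emb (w : QBar) (z : OK) : QBar := z.re + z.im * w

/-- The field `K = ℚ(w)`. It is `ℚ(√-7)` if `w² = w - 2`. -/
noncomputable abbrev K (w : QBar) : IntermediateField ℚ QBar := IntermediateField.adjoin ℚ {w}

/-- The absolute Galois group of `K`. -/
abbrev Gal (w : QBar) : Type := QBar ≃ₐ[K w] QBar

/-- The absolute Galois group of `L = K(s)`, a closed subgroup of the one of `K`. -/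
noncomputable def sub (w s : QBar) : Subgroup (Gal w) :=
  (IntermediateField.adjoin (K w) {s}).fixingSubgroup

/-- The absolute Galois group of `L = K(s)`. -/
abbrev GalL (w s : QBar) : Type := ↥(sub w s)

/-! ### The Tate twists and the Tate–Shafarevich groups -/

/-- The `2`-adic cyclotomic character. -/
noncomputable def cyc (w : QBar) : Gal w →* ℤ_[2]ˣ :=
  (cyclotomicCharacter QBar 2).comp (MulSemiringAction.toRingAut (Gal w) QBar)

/-- The `2`-adic integer by which the element `σ` of the absolute Galois group of `L` acts on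
`ℤ_2(r)`, that is, the `r`-th power of the value of the cyclotomic character. -/
noncomputable def tate {w s : QBar} (r : ℤ) (σ : GalL w s) : ℤ_[2] :=
  (((cyc w (σ : Gal w)) ^ r : ℤ_[2]ˣ) : ℤ_[2])

/-- The decomposition group of the place of `L` given by the embedding `ι` of `ℚ̄`. -/
def Dec {w s : QBar} {p : ℕ} [Fact p.Prime] (ι : QBar →ₐ[ℚ] PadicAlgCl p) : Set (GalL w s) :=
  {σ | ∃ τ : PadicAlgCl p ≃ₐ[ℚ_[p]] PadicAlgCl p, ∀ x, τ (ι x) = ι ((σ : Gal w) x)}

/-- Its inertia group: the automorphisms which are trivial on the residue field. -/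
def Inr {w s : QBar} {p : ℕ} [Fact p.Prime] (ι : QBar →ₐ[ℚ] PadicAlgCl p) : Set (GalL w s) :=
  {σ | ∃ τ : PadicAlgCl p ≃ₐ[ℚ_[p]] PadicAlgCl p, (∀ x, τ (ι x) = ι ((σ : Gal w) x)) ∧
    ∀ z : PadicAlgCl p, ‖z‖ ≤ 1 → ‖τ z - z‖ < 1}

/-- The continuous cocycles of the absolute Galois group of `L` with values in `ℤ_2(r)`. -/
structure IsCocycle {w s : QBar} (r : ℤ) (c : GalL w s → ℤ_[2]) : Prop where
  cont : Continuous c
  mul : ∀ σ τ, c (σ * τ) = c σ + tate r σ * c τ

/-- The restriction of `c` to the subset `S` is a coboundary with values in `ℤ_2(r)`. -/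
def TrivialOn {w s : QBar} (r : ℤ) (S : Set (GalL w s)) (c : GalL w s → ℤ_[2]) : Prop :=
  ∃ z : ℤ_[2], ∀ σ ∈ S, c σ = (tate r σ - 1) * z

/-- The cocycles of the elements of the groups `Ш¹(O_{L,S}, ℤ_2(r))`: they vanish on the inertia
groups of the places prime to `2` (on which the cyclotomic character is trivial), because their
classes are unramified outside `S` and locally trivial at the places of `S`, and their restrictions
to the decomposition groups of the places above `2` are coboundaries. -/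
structure InSha {w s : QBar} (r : ℤ) (c : GalL w s → ℤ_[2]) : Prop where
  odd : ∀ (p : ℕ) [Fact p.Prime] (ι : QBar →ₐ[ℚ] PadicAlgCl p), p ≠ 2 → ∀ σ ∈ Inr ι, c σ = 0
  two : ∀ ι : QBar →ₐ[ℚ] PadicAlgCl 2, TrivialOn r (Dec ι) c

/-- `Ш¹(O_{L,S}, ℤ_2(r)) = 0` for all `S`. -/
def ShaZero (w s : QBar) (r : ℤ) : Prop :=
  ∀ c : GalL w s → ℤ_[2], IsCocycle r c → InSha r c → TrivialOn r Set.univ c

/-! ### The family -/

/-- `x` is a square modulo `q`. -/
def IsSquareMod (q x : OK) : Prop := ∃ y : OK, q ∣ x - y ^ 2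

/-- `d = ± q_1 ... q_n`, the `q_i` are distinct primes congruent to `1` modulo `4`, their product is
congruent to `5` modulo `8`, and the only ways to write `{1, ..., n}` as the union of two disjoint
subsets `S` and `T` such that the product of the `q_k`, `k ∈ S`, is a square modulo the `q_i`,
`i ∈ T`, and conversely, are the trivial ones. By quadratic reciprocity, this means that the graph
with edges `{i, k}` for the pairs such that `q_i` is not a square modulo `q_k` has an odd number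
of spanning trees. -/
structure Good {n : ℕ} (q : Fin n → OK) (d : OK) : Prop where
  prime : ∀ i, Prime (q i)
  one : ∀ i, (4 : OK) ∣ q i - 1
  inj : Function.Injective q
  prod : d = ∏ i, q i ∨ d = -∏ i, q i
  five : (8 : OK) ∣ ∏ i, q i - 5
  indec : ∀ S : Finset (Fin n), (∀ i, i ∉ S → IsSquareMod (q i) (∏ k ∈ S, q k)) →
    (∀ i, i ∈ S → IsSquareMod (q i) (∏ k ∈ Sᶜ, q k)) → S = ∅ ∨ S = Finset.univ

/-- For `K = ℚ(√-7)` and `L = K(√d)` the degree of `L` over `K` is two and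
`Ш¹(O_{L,S}, ℤ_2(r)) = 0` for all `r ≠ 0` and all `S`. -/
def Schneider (d : OK) : Prop :=
  ∀ w s : QBar, w ^ 2 = w - 2 → s ^ 2 = emb w d → s ∉ K w ∧ ∀ r : ℤ, r ≠ 0 → ShaZero w s r

/-! ### The proof -/

section proof

open Pool.Agent.R384 (em)

variable {w : QBar} (hw : w ^ 2 = w - 2) {s : QBar}

lemma emb_eq (z : OK) : emb w z = em hw z := by
  unfold emb
  rw [Pool.Agent.R384.em_apply]

lemma sub_eq (hs0 : s ≠ 0) (hs : ∀ σ : Gal w, σ s = s ∨ σ s = -s) :
    sub w s = Pool.Agent.R384.kr (Pool.Agent.R384.es hs0 hs) ⊤ := by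
  ext σ
  unfold sub
  rw [Pool.Agent.R384.mem_kr, Pool.Agent.R384.es_one, IntermediateField.mem_fixingSubgroup_iff]
  constructor
  · intro h
    exact ⟨Subgroup.mem_top σ, h s (IntermediateField.mem_adjoin_simple_self (K w) s)⟩
  · rintro ⟨-, h⟩ x hx
    have h1 : IntermediateField.adjoin (K w) {s} ≤
        IntermediateField.fixedField (Subgroup.zpowers σ) := by
      rw [IntermediateField.adjoin_simple_le_iff, IntermediateField.mem_fixedField_iff]
      intro τ hτ
      obtain ⟨k, rfl⟩ := hτ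
      have h2 : σ ∈ MulAction.stabilizer (Gal w) s := h
      exact (MulAction.stabilizer (Gal w) s).zpow_mem h2 k
    exact (IntermediateField.mem_fixedField_iff _ x).1 (h1 hx) σ (Subgroup.mem_zpowers σ)

theorem sch {n : ℕ} {q : Fin n → OK} {d : OK} (hg : Good q d) : Schneider d := by
  intro w s hw hsd
  rw [emb_eq hw] at hsd
  have hpr : ∀ i, Pool.Agent.R384.Pr (q i) := fun i => ⟨hg.prime i, hg.one i⟩
  have hprod0 : ∏ i, q i ≠ 0 := Finset.prod_ne_zero_iff.2 fun i _ => (hg.prime i).ne_zero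
  have hd : d ≠ 0 := by
    rcases hg.prod with h | h
    · rwa [h]
    · rw [h]
      exact neg_ne_zero.2 hprod0
  have hs0 : s ≠ 0 := by
    rintro rfl
    apply Pool.Agent.R384.em_ne hw hd
    rw [← hsd]
    ring
  have hs : ∀ σ : Gal w, σ s = s ∨ σ s = -s := Pool.Agent.R384.rt_or hw hsd
  obtain ⟨p, hpf, ι, hι⟩ := Pool.Agent.R384.exists_emb hw Pool.Agent.R384.prime_om
  have hp2 : p = 2 := by
    rw [Pool.Agent.R384.ι_em] at hι
    exact (Pool.Agent.R384.two_of_dvd Pool.Agent.R384.prime_om (Pool.Agent.R384.iw hw ι) hι).2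
      ⟨_, Pool.Agent.R384.om_mul.symm⟩
  subst hp2
  have h8 : (8 : OK) ∣ d - 5 ∨ (8 : OK) ∣ d + 5 := by
    rcases hg.prod with h | h
    · left; rw [h]; exact hg.five
    · right
      rw [h]
      have : -∏ i, q i + 5 = -(∏ i, q i - 5) := by ring
      rw [this]
      exact (dvd_neg).2 hg.five
  constructor
  · intro hmem
    obtain ⟨z, hz, hmz⟩ := Pool.Agent.R384.five_of h8 (Pool.Agent.R384.iw hw ι)
    have key : ∃ σ ∈ (Pool.Agent.R384.DD ι : Set (Gal w)), σ s = -s := by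
      rcases hz with rfl | rfl
      · exact Pool.Agent.R384.exists_dec' hw (z := 5) (k := 1) (n := 2) (by norm_num) (by norm_num)
          (by norm_num) (by norm_num) ι hmz hsd
      · exact Pool.Agent.R384.exists_dec' hw (z := -5) (k := -3) (n := 1) (by norm_num)
          (by norm_num) (by norm_num) (by norm_num) ι hmz hsd
    obtain ⟨σ, -, h1⟩ := key
    have h2 : σ s = s := σ.commutes ⟨s, hmem⟩
    rw [h2] at h1
    have h3 : (2 : QBar) * s = 0 := by linear_combination h1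
    exact (mul_ne_zero two_ne_zero hs0) h3
  · intro r hr c hc hsha
    set χ : Gal w →* ℤ_[2]ˣ := Pool.Agent.R384.cyc w ^ r with hχ
    have htate : ∀ σ : GalL w s, Pool.Agent.R384.vl χ (σ : Gal w) = ((tate r σ : ℤ_[2]) : ℚ_[2]) :=
      fun σ => rfl
    set c' : Gal w → ℚ_[2] := fun σ => if h : σ ∈ sub w s then ((c ⟨σ, h⟩ : ℤ_[2]) : ℚ_[2]) else 0
      with hc'
    have hval : ∀ σ : GalL w s, c' (σ : Gal w) = ((c σ : ℤ_[2]) : ℚ_[2]) := by
      intro σ
      rw [hc']
      exact dif_pos σ.2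
    have hmem : ∀ {σ : Gal w}, σ ∈ Pool.Agent.R384.kr (Pool.Agent.R384.es hs0 hs) ⊤ →
        σ ∈ sub w s := fun h => by rwa [sub_eq hs0 hs]
    have g1 : ContinuousOn c' (Pool.Agent.R384.kr (Pool.Agent.R384.es hs0 hs) ⊤ : Subgroup (Gal w)) := by
      rw [← sub_eq hs0 hs, continuousOn_iff_continuous_domRestrict]
      have e : (↑(sub w s) : Set (Gal w)).domRestrict c' = fun σ => ((c σ : ℤ_[2]) : ℚ_[2]) := by
        funext σ
        exact hval σ
      rw [e]
      exact continuous_subtype_val.comp hc.cont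
    have g2 : ∀ σ ∈ Pool.Agent.R384.kr (Pool.Agent.R384.es hs0 hs) ⊤,
        ∀ τ ∈ Pool.Agent.R384.kr (Pool.Agent.R384.es hs0 hs) ⊤,
        c' (σ * τ) = c' σ + Pool.Agent.R384.vl χ σ * c' τ := by
      intro σ hσ τ hτ
      have h1 := hc.mul ⟨σ, hmem hσ⟩ ⟨τ, hmem hτ⟩
      have h2 := hval (⟨σ, hmem hσ⟩ * ⟨τ, hmem hτ⟩)
      have h3 : c' (σ * τ) = ((c (⟨σ, hmem hσ⟩ * ⟨τ, hmem hτ⟩) : ℤ_[2]) : ℚ_[2]) := h2
      rw [h3, h1, hval ⟨σ, hmem hσ⟩, hval ⟨τ, hmem hτ⟩, htate ⟨σ, hmem hσ⟩]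
      push_cast
      rfl
    obtain ⟨y, hy⟩ := Pool.Agent.R384.van_cyc hw hs0 hs hsd hpr hg.inj hg.five hg.indec hg.prod r
      (Or.inl ⟨rfl, rfl⟩) c' ⟨g1, g2⟩ (fun p _ κ hp => ⟨0, fun σ hσ h1 => by
        rw [mul_zero, hval ⟨σ, hmem h1⟩, hsha.odd p κ hp ⟨σ, hmem h1⟩ hσ]
        rfl⟩) (fun κ _ => by
        obtain ⟨z, hz⟩ := hsha.two κ
        refine ⟨(z : ℚ_[2]), fun σ hσ h1 => ?_⟩
        rw [hval ⟨σ, hmem h1⟩, hz ⟨σ, hmem h1⟩ hσ, htate ⟨σ, hmem h1⟩]
        push_cast
        rfl)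
    -- the integrality
    obtain ⟨z, hz⟩ := hsha.two ι
    obtain ⟨σ, h1, h2, h3⟩ := Pool.Agent.R384.exists_cyc_ne hw hs ι hr
    have h4 : σ ∈ sub w s := hmem (Pool.Agent.R384.mem_kr.2
      ⟨Subgroup.mem_top σ, (Pool.Agent.R384.es_one hs0 hs).2 h2⟩)
    have h5 := hz ⟨σ, h4⟩ h1
    have h6 := hy σ (by rwa [← sub_eq hs0 hs])
    rw [hval ⟨σ, h4⟩, h5, htate ⟨σ, h4⟩] at h6
    push_cast at h6
    have h7 : ((tate r (⟨σ, h4⟩ : GalL w s) : ℤ_[2]) : ℚ_[2]) - 1 ≠ 0 := by
      intro h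
      apply h3
      have h8 : (((tate r (⟨σ, h4⟩ : GalL w s) : ℤ_[2]) - 1 : ℤ_[2]) : ℚ_[2]) = 0 := by
        push_cast
        exact h
      have h9 : (tate r (⟨σ, h4⟩ : GalL w s) : ℤ_[2]) - 1 = 0 :=
        Subtype.ext (h8.trans PadicInt.coe_zero.symm)
      have h10 : (tate r (⟨σ, h4⟩ : GalL w s) : ℤ_[2]) = 1 := sub_eq_zero.1 h9
      exact Units.ext h10
    have hyz : y = (z : ℚ_[2]) := (mul_left_cancel₀ h7 h6).symm
    refine ⟨z, fun σ _ => ?_⟩
    have h8 := hy (σ : Gal w) (by rw [← sub_eq hs0 hs]; exact σ.2)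
    rw [hval, hyz, htate] at h8
    have h9 : ((c σ : ℤ_[2]) : ℚ_[2]) = (((tate r σ - 1) * z : ℤ_[2]) : ℚ_[2]) := by
      rw [h8]
      push_cast
      rfl
    exact Subtype.ext h9
end proof

/-- **Schneider's conjecture for `p = 2` over quadratic extensions of `ℚ(√-7)`.** -/
theorem result :
    (∀ (n : ℕ) (q : Fin n → OK) (d : OK), Good q d → Schneider d) ∧
    ∀ n : ℕ, 1 ≤ n → {d : OK | ∃ q : Fin n → OK, Good q d}.Infinite := by
  refine ⟨fun n q d hg => sch hg, ?_⟩
  intro n hn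
  obtain ⟨k, rfl⟩ : ∃ k, n = k + 1 := ⟨n - 1, by omega⟩
  refine (Pool.Agent.R384.inf k).mono ?_
  rintro D ⟨q, hq, hD⟩
  exact ⟨q, fun i => (hq.pr i).prime, fun i => (hq.pr i).one, hq.inj, Or.inl hD, hq.five, hq.ind⟩

end Pool.Agent.Results.MP_59f3ad_nt.QuarticFieldsAllTwists
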