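import Mathlib
import Pool.Agent.R361.QF.Four
import Pool.Agent.TH350.SC.Main

/-!
# Schneider's conjecture over `ℚ` at the odd multiples of `(p - 1) / 4`

`ZetaUnit p r` (`Pool/Agent/TH350/SC/Defs.lean`) says that the `p`-adic zeta value
`ζ_p(r) = L_p(r, ω^{1-r}) = 1/(r-1) · lim_N p^{-N} ∑_{0 < a < p^N, p ∤ a} a^{1-r}` exists and is a
`p`-adic unit; it implies `Ш¹(ℤ[1/p], ℤ_p(r)) = 0`, Schneider's conjecture for `L = ℚ` and the twist
`r` (only `ζ_p(r) ≠ 0` is needed).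

For almost all primes `p ≡ 5 (mod 8)` this is true for all twists `r` that are odd multiples of
`(p - 1) / 4`. By the congruences of Kummer `ζ_p(r)` is a unit for these `r` if `p` does not divide
`B_{(p+3)/4}` and `B_{(3p+1)/4}` (`Pool/Agent/TH350/SC`), and this is true for almost all
`p ≡ 5 (mod 8)` by `Pool/Agent/R361/QF/Four.lean`.
-/

set_option autoImplicit false

namespace Pool.Agent.Results.MP_59f3ad_nt.QuarticTwists

open Filter
open Pool.Agent.TH350.SC (ZetaUnit)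

lemma unit_of {p : ℕ} (hp : p.Prime) (h8 : p % 8 = 5) (h5 : 5 < p)
    (hB : ¬ Pool.Agent.R361.QF.B4 p) (t : ℕ) (ht : Odd t) : ZetaUnit p (t * ((p - 1) / 4)) := by
  intro hF
  unfold Pool.Agent.R361.QF.B4 at hB
  push Not at hB
  obtain ⟨j, hj⟩ : ∃ j, p = 8 * j + 5 := ⟨p / 8, by omega⟩
  have hj1 : 1 ≤ j := by omega
  have e1 : (p - 1) / 4 = 2 * j + 1 := by omega
  have e2 : (p + 3) / 4 = 2 * (j + 1) := by omega
  have e3 : (3 * p + 1) / 4 = 2 * (3 * j + 2) := by omega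
  have e4 : p - 1 = 4 * (2 * j + 1) := by omega
  rw [e1]
  rw [e2, e3] at hB
  obtain ⟨s, hs⟩ := ht
  have hr3 : 3 ≤ t * (2 * j + 1) := by
    have : 1 ≤ t := by omega
    calc 3 ≤ 1 * (2 * j + 1) := by omega
      _ ≤ _ := Nat.mul_le_mul_right _ this
  rcases Nat.even_or_odd' s with ⟨u, hu | hu⟩
  · -- `t = 4 u + 1`
    refine Pool.Agent.TH350.SC.zetaUnit (m := 3 * j + 2) (by omega) (by omega) (by omega) ?_ hB.2
    refine ⟨u + 1, ?_⟩
    rw [e4]
    have h1 : t * (2 * j + 1) - 1 + 2 * (3 * j + 2) = t * (2 * j + 1) + 3 * (2 * j + 1) := by omega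
    rw [h1, hs, hu]
    ring
  · refine Pool.Agent.TH350.SC.zetaUnit (m := j + 1) (by omega) (by omega) (by omega) ?_ hB.1
    refine ⟨u + 1, ?_⟩
    rw [e4]
    have h1 : t * (2 * j + 1) - 1 + 2 * (j + 1) = t * (2 * j + 1) + (2 * j + 1) := by omega
    rw [h1, hs, hu]
    ring

/-- For all but `o(x / log x)` of the primes `p ≤ x` with `p ≡ 5 (mod 8)`, `p > 5`, the value
`ζ_p(r)` is a `p`-adic unit for every odd multiple `r > 0` of `(p - 1) / 4`. -/
theorem result (ε : ℝ) (hε : 0 < ε) :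
    ∀ᶠ x : ℕ in atTop,
      (Nat.card {p : ℕ | p ≤ x ∧ p.Prime ∧ p % 8 = 5 ∧ 5 < p ∧
        ¬ ∀ t : ℕ, Odd t → ZetaUnit p (t * ((p - 1) / 4))} : ℝ) ≤ ε * (x / Real.log x) := by
  filter_upwards [Pool.Agent.R361.QF.four_count ε hε] with x hx
  refine le_trans ?_ hx
  refine Nat.cast_le.2 (Nat.card_mono ((Set.finite_le_nat x).subset fun p hp => hp.1) ?_)
  rintro p ⟨h1, h2, h3, h4, h5⟩
  refine ⟨h1, ⟨h2, h3⟩, by_contra fun hB => h5 fun t ht => unit_of h2 h3 h4 hB t ht⟩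

end Pool.Agent.Results.MP_59f3ad_nt.QuarticTwists
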