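import Mathlib
import Pool.Agent.R384.Z.SchT

/-!
# Schneider's conjecture for `p = 2` and all twists over the `2`-extensions of `ℚ(√-d)` unramified
# outside `2`

Let `K = ℚ(√-d)`, where `d` is a prime number that is `7` modulo `16`, or the product of a prime
number that is `5` modulo `8` and of a prime number that is `3` modulo `8`. Let `L ⊇ K` be a field
contained in a finite Galois extension `M / K` of degree a power of `2`, unramified outside `2`; there
is no condition on the structure of the Galois group of `M / K`, and `L / K` need not be Galois.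

Theorem: `Ш¹(O_{L,S}, ℤ_2(r)) = 0` for **all** integers `r ≠ 0` and all `S`.

Proof. By Shapiro's lemma a class in `Ш¹(O_{L,S}, ℚ_2(r))` is a class over `K` with coefficients in
the representation induced from `ℤ_2(r)`, whose reduction modulo `2` is unipotent; by devissage we
come to quadratic characters of `K` unramified outside `2` and trivial at one prime above `2`, which
are trivial. The decomposition groups of `L` above `2` act nontrivially on `ℤ_2(r)`, which gives the
integral statement.
-/

set_option autoImplicit false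

namespace Pool.Agent.Results.MP_59f3ad_nt.TwoExtensionTowers

/-- An algebraic closure of `ℚ`. -/
abbrev QBar : Type := AlgebraicClosure ℚ

/-- The field `ℚ(s)`. It is `ℚ(√-d)` if `s² = -d`. -/
noncomputable abbrev K (s : QBar) : IntermediateField ℚ QBar := IntermediateField.adjoin ℚ {s}

/-- The absolute Galois group of `ℚ(s)`. -/
def Gal (s : QBar) : Type := QBar ≃ₐ[K s] QBar

/-- its group structure -/
noncomputable instance instGroupGal (s : QBar) : Group (Gal s) := AlgEquiv.aut (R := K s) (A₁ := QBar)

/-- its Krull topology -/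
noncomputable instance instTopGal (s : QBar) : TopologicalSpace (Gal s) := krullTopology (K s) QBar

/-- The action of the Galois group on `ℚ̄`. -/
noncomputable def app {s : QBar} (σ : Gal s) (x : QBar) : QBar := (show QBar ≃ₐ[K s] QBar from σ) x

/-- The class of the numbers `d`: the primes `7 mod 16`, and the products of a prime `5 mod 8` and of
a prime `3 mod 8`. -/
def InClass (d : ℕ) : Prop :=
  (d.Prime ∧ d % 16 = 7) ∨ ∃ p q : ℕ, p.Prime ∧ q.Prime ∧ p % 8 = 5 ∧ q % 8 = 3 ∧ d = p * q

/-- The decomposition group of the place given by the embedding `ι` of `ℚ̄`. -/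
def Dec {s : QBar} {p : ℕ} [Fact p.Prime] (ι : QBar →ₐ[ℚ] PadicAlgCl p) : Set (Gal s) :=
  {σ | ∃ τ : PadicAlgCl p ≃ₐ[ℚ_[p]] PadicAlgCl p, ∀ x, τ (ι x) = ι (app σ x)}

/-- Its inertia group: the automorphisms which are trivial on the residue field. -/
def Inr {s : QBar} {p : ℕ} [Fact p.Prime] (ι : QBar →ₐ[ℚ] PadicAlgCl p) : Set (Gal s) :=
  {σ | ∃ τ : PadicAlgCl p ≃ₐ[ℚ_[p]] PadicAlgCl p, (∀ x, τ (ι x) = ι (app σ x)) ∧
    ∀ z : PadicAlgCl p, ‖z‖ ≤ 1 → ‖τ z - z‖ < 1}

/-- `N` is the Galois group of `ℚ̄ / M` for a finite Galois extension `M / ℚ(s)` whose degree is a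
power of `2` and which is unramified outside `2`: `N` is a normal open subgroup of index a power of
`2` and contains the inertia groups of the odd primes. -/
structure TwoExtension {s : QBar} (N : Subgroup (Gal s)) : Prop where
  isOpen : IsOpen (N : Set (Gal s))
  normal : N.Normal
  index : ∃ a : ℕ, N.index = 2 ^ a
  unramified : ∀ (p : ℕ) [Fact p.Prime] (ι : QBar →ₐ[ℚ] PadicAlgCl p), p ≠ 2 →
    ∀ σ ∈ (Inr ι : Set (Gal s)), σ ∈ N

/-- The `2`-adic cyclotomic character. -/
noncomputable def cyc (s : QBar) : Gal s →* ℤ_[2]ˣ :=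
  (cyclotomicCharacter QBar 2).comp (MulSemiringAction.toRingAut (QBar ≃ₐ[K s] QBar) QBar)

/-- The `2`-adic integer by which the element `σ` of the absolute Galois group `H` of `L` acts on
`ℤ_2(r)`, that is, the `r`-th power of the value of the cyclotomic character. -/
noncomputable def tate {s : QBar} {H : Subgroup (Gal s)} (r : ℤ) (σ : H) : ℤ_[2] :=
  (((cyc s (σ : Gal s)) ^ r : ℤ_[2]ˣ) : ℤ_[2])

/-- The continuous cocycles of the absolute Galois group `H` of `L` with values in `ℤ_2(r)`. -/
structure IsCocycle {s : QBar} {H : Subgroup (Gal s)} (r : ℤ) (c : H → ℤ_[2]) : Prop where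
  cont : Continuous c
  mul : ∀ σ τ, c (σ * τ) = c σ + tate r σ * c τ

/-- The restriction of `c` to the subset `D` is a coboundary with values in `ℤ_2(r)`. -/
def TrivialOn {s : QBar} {H : Subgroup (Gal s)} (r : ℤ) (D : Set (Gal s)) (c : H → ℤ_[2]) : Prop :=
  ∃ z : ℤ_[2], ∀ σ : H, (σ : Gal s) ∈ D → c σ = (tate r σ - 1) * z

/-- The cocycles of the elements of the groups `Ш¹(O_{L,S}, ℤ_2(r))`: they vanish on the inertia
groups of the places prime to `2` (on which the cyclotomic character is trivial), because their
classes are unramified outside `S` and locally trivial at the places of `S`, and their restrictions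
to the decomposition groups of the places above `2` are coboundaries. -/
structure InSha {s : QBar} {H : Subgroup (Gal s)} (r : ℤ) (c : H → ℤ_[2]) : Prop where
  odd : ∀ (p : ℕ) [Fact p.Prime] (ι : QBar →ₐ[ℚ] PadicAlgCl p), p ≠ 2 →
    ∀ σ : H, (σ : Gal s) ∈ Inr ι → c σ = 0
  two : ∀ ι : QBar →ₐ[ℚ] PadicAlgCl 2, TrivialOn r (Dec ι) c

/-- `Ш¹(O_{L,S}, ℤ_2(r)) = 0` for all `S`, where `L` is the field with absolute Galois group `H`. -/
def ShaZero {s : QBar} (H : Subgroup (Gal s)) (r : ℤ) : Prop :=
  ∀ c : H → ℤ_[2], IsCocycle r c → InSha r c → TrivialOn r Set.univ c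

/-- **Schneider's conjecture for `p = 2`, all twists `r ≠ 0` and all fields `L` that are contained in
a Galois extension of `ℚ(√-d)` of `2`-power degree unramified outside `2`.** -/
theorem result : ∀ d : ℕ, InClass d → ∀ s : QBar, s ^ 2 = -(d : QBar) →
    ∀ H N : Subgroup (Gal s), N ≤ H → TwoExtension N → ∀ r : ℤ, r ≠ 0 → ShaZero H r := by
  intro d hd s hs H N hNH hN r hr c hc hS
  obtain ⟨z, hz⟩ := Pool.Agent.Z384.schT hs hd hNH hN.normal hN.index hN.isOpen hN.unramified hr
    hc.cont hc.mul hS.odd hS.two
  exact ⟨z, fun σ _ => hz σ⟩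

end Pool.Agent.Results.MP_59f3ad_nt.TwoExtensionTowers
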